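import Mathlib

/-! # Sums over thin sublattices tend to a single term

`L` is a discrete `ℤ`-submodule of a finite dimensional real space `E`, `f : E → ℂ` decays exponentially. Then the
sum of `f` over `v₀ + k L` converges for every `k ≥ 1`, and tends to `f v₀` when `k → ∞`.
-/

noncomputable section

open Filter Topology

namespace Pool.Agent.Lib.CMT.NV

variable {E : Type*} [NormedAddCommGroup E]

/-- The nonzero elements of a discrete subgroup are bounded below. -/
theorem exists_norm_lower (L : Submodule ℤ E) [DiscreteTopology L] :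
    ∃ ρ : ℝ, 0 < ρ ∧ ∀ l : L, l ≠ 0 → ρ ≤ ‖(l : E)‖ := by
  obtain ⟨ρ, hρ, h⟩ := Metric.isOpen_singleton_iff.mp (isOpen_discrete ({0} : Set L))
  refine ⟨ρ, hρ, fun l hl => ?_⟩
  by_contra hlt
  push Not at hlt
  exact hl (h l (by simpa [dist_eq_norm] using hlt))

/-- Elementary bound of the exponential by a power. -/
theorem exp_neg_le_pow {ε t : ℝ} (hε : 0 < ε) (ht : 0 < t) (n : ℕ) :
    Real.exp (-ε * t) ≤ (n.factorial : ℝ) / ε ^ n * t⁻¹ ^ n := by
  have h1 : (ε * t) ^ n / (n.factorial : ℝ) ≤ Real.exp (ε * t) :=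
    Real.pow_div_factorial_le_exp (ε * t) (by positivity) n
  have h2 : Real.exp (-ε * t) = (Real.exp (ε * t))⁻¹ := by
    rw [← Real.exp_neg]; congr 1; ring
  rw [h2]
  have h3 : 0 < (ε * t) ^ n / (n.factorial : ℝ) := by positivity
  calc (Real.exp (ε * t))⁻¹ ≤ ((ε * t) ^ n / (n.factorial : ℝ))⁻¹ := inv_anti₀ h3 h1
    _ = (n.factorial : ℝ) / ε ^ n * t⁻¹ ^ n := by
        rw [inv_div, mul_pow, inv_pow]
        field_simp

/-- An exponentially decaying function is bounded below in the constant: `0 ≤ C`. -/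
theorem const_nonneg {f : E → ℂ} {C ε : ℝ} (hf : ∀ v, ‖f v‖ ≤ C * Real.exp (-ε * ‖v‖)) : 0 ≤ C := by
  have h := (norm_nonneg _).trans (hf 0)
  simpa using h

variable [NormedSpace ℝ E]

/-- The dominating estimate: `‖v₀ + k l‖ ≥ ‖l‖` for all `l` in `L` and all large `k`. -/
theorem eventually_norm_le (L : Submodule ℤ E) [DiscreteTopology L] (v₀ : E) :
    ∀ᶠ k : ℕ in atTop, ∀ l : L, l ≠ 0 → ‖(l : E)‖ ≤ ‖v₀ + (k : ℝ) • (l : E)‖ := by
  obtain ⟨ρ, hρ, h⟩ := exists_norm_lower L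
  filter_upwards [eventually_ge_atTop (⌈1 + ‖v₀‖ / ρ⌉₊)] with k hk l hl
  have hk' : 1 + ‖v₀‖ / ρ ≤ (k : ℝ) := (Nat.le_ceil _).trans (by exact_mod_cast hk)
  have hl' := h l hl
  have h1 : ‖(k : ℝ) • (l : E)‖ = (k : ℝ) * ‖(l : E)‖ := by
    rw [norm_smul, Real.norm_of_nonneg (Nat.cast_nonneg k)]
  have h2 : ‖(k : ℝ) • (l : E)‖ ≤ ‖v₀ + (k : ℝ) • (l : E)‖ + ‖v₀‖ := by
    have := norm_sub_le (v₀ + (k : ℝ) • (l : E)) v₀
    simpa using this
  have h3 : ‖v₀‖ ≤ ‖v₀‖ / ρ * ‖(l : E)‖ := by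
    rw [div_mul_eq_mul_div, le_div_iff₀ hρ]
    exact mul_le_mul_of_nonneg_left hl' (norm_nonneg _)
  have h4 : (1 + ‖v₀‖ / ρ) * ‖(l : E)‖ ≤ (k : ℝ) * ‖(l : E)‖ :=
    mul_le_mul_of_nonneg_right hk' (norm_nonneg _)
  nlinarith

variable [FiniteDimensional ℝ E]

/-- `exp (-ε ‖z‖)` is summable over a discrete subgroup. -/
theorem summable_exp_neg_norm (L : Submodule ℤ E) [DiscreteTopology L] {ε : ℝ} (hε : 0 < ε) :
    Summable fun l : L => Real.exp (-ε * ‖(l : E)‖) := by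
  set n : ℕ := Module.finrank ℤ L + 1 with hn
  have hs := (ZLattice.summable_norm_pow_inv L n (by omega)).mul_left ((n.factorial : ℝ) / ε ^ n)
  refine Summable.of_norm_bounded_eventually hs ?_
  refine (Set.finite_singleton (0 : L)).subset ?_
  intro l hl
  by_contra h0
  have h0' : l ≠ 0 := h0
  have hpos : 0 < ‖(l : E)‖ := by
    rw [norm_pos_iff]
    simpa using h0'
  refine hl ?_
  change ‖Real.exp (-ε * ‖(l : E)‖)‖ ≤ (n.factorial : ℝ) / ε ^ n * ‖l‖⁻¹ ^ n
  rw [Real.norm_of_nonneg (Real.exp_pos _).le]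
  exact exp_neg_le_pow hε hpos n

/-- Sums of an exponentially decaying function over a translate of a discrete subgroup converge. -/
theorem summable_translate (L : Submodule ℤ E) [DiscreteTopology L] {f : E → ℂ} {C ε : ℝ} (hε : 0 < ε)
    (hf : ∀ v, ‖f v‖ ≤ C * Real.exp (-ε * ‖v‖)) (v₀ : E) :
    Summable fun l : L => f (v₀ + (l : E)) := by
  have hC := const_nonneg hf
  refine Summable.of_norm_bounded (g := fun l : L => C * Real.exp (ε * ‖v₀‖) * Real.exp (-ε * ‖(l : E)‖))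
    ((summable_exp_neg_norm L hε).mul_left _) fun l => ?_
  refine (hf _).trans ?_
  rw [mul_assoc, ← Real.exp_add]
  refine mul_le_mul_of_nonneg_left (Real.exp_le_exp.mpr ?_) hC
  have h2 : ‖(l : E)‖ ≤ ‖v₀ + (l : E)‖ + ‖v₀‖ := by
    have := norm_sub_le (v₀ + (l : E)) v₀
    simpa using this
  nlinarith

/-- Sums over `v₀ + k L`, `k ≥ 1`. -/
theorem summable_translate_smul (L : Submodule ℤ E) [DiscreteTopology L] {f : E → ℂ} {C ε : ℝ} (hε : 0 < ε)
    (hf : ∀ v, ‖f v‖ ≤ C * Real.exp (-ε * ‖v‖)) (v₀ : E) {k : ℕ} (hk : 1 ≤ k) :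
    Summable fun l : L => f (v₀ + (k : ℝ) • (l : E)) := by
  have hk' : (k : ℤ) ≠ 0 := by exact_mod_cast (by omega : k ≠ 0)
  have hinj : Function.Injective fun l : L => (k : ℤ) • l := by
    intro a b hab
    have h1 : (((k : ℤ) • a : L) : E) = (((k : ℤ) • b : L) : E) := congrArg (fun x : L => (x : E)) hab
    have h2 : ((k : ℝ)) • (a : E) = (k : ℝ) • (b : E) := by
      rw [Nat.cast_smul_eq_nsmul, Nat.cast_smul_eq_nsmul]
      simpa using h1
    have hkr : (k : ℝ) ≠ 0 := by exact_mod_cast (by omega : k ≠ 0)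
    exact Subtype.ext (smul_right_injective E hkr h2)
  have hs := (summable_translate L hε hf v₀).comp_injective hinj
  refine hs.congr fun l => ?_
  simp [Nat.cast_smul_eq_nsmul]

/-- **Thin lattices.** The sum over `v₀ + k L` tends to the single term `f v₀`. -/
theorem tendsto_tsum_single (L : Submodule ℤ E) [DiscreteTopology L] {f : E → ℂ} {C ε : ℝ} (hε : 0 < ε)
    (hf : ∀ v, ‖f v‖ ≤ C * Real.exp (-ε * ‖v‖)) (v₀ : E) :
    Tendsto (fun k : ℕ => ∑' l : L, f (v₀ + (k : ℝ) • (l : E))) atTop (𝓝 (f v₀)) := by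
  classical
  have hC := const_nonneg hf
  have hg : ∑' l : L, (if l = 0 then f v₀ else 0) = f v₀ := by
    rw [tsum_ite_eq]
  rw [← hg]
  refine tendsto_tsum_of_dominated_convergence ((summable_exp_neg_norm L hε).mul_left C) ?_ ?_
  · intro l
    by_cases hl : l = 0
    · subst hl
      simp
    · simp only [hl, if_false]
      have hpos : 0 < ‖(l : E)‖ := by
        rw [norm_pos_iff]
        simpa using hl
      rw [tendsto_zero_iff_norm_tendsto_zero]
      have hb : Tendsto (fun k : ℕ => C * Real.exp (-ε * ((k : ℝ) * ‖(l : E)‖ - ‖v₀‖))) atTop (𝓝 (C * 0)) := by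
        refine Tendsto.const_mul _ (Real.tendsto_exp_atBot.comp ?_)
        have h1 : Tendsto (fun k : ℕ => (k : ℝ) * ‖(l : E)‖ - ‖v₀‖) atTop atTop :=
          tendsto_atTop_add_const_right _ _
            (Tendsto.atTop_mul_const hpos tendsto_natCast_atTop_atTop)
        exact (Tendsto.const_mul_atTop_of_neg (by linarith : -ε < 0) h1)
      rw [mul_zero] at hb
      refine squeeze_zero (fun k => norm_nonneg _) (fun k => ?_) hb
      refine (hf _).trans (mul_le_mul_of_nonneg_left (Real.exp_le_exp.mpr ?_) hC)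
      have h1 : ‖(k : ℝ) • (l : E)‖ = (k : ℝ) * ‖(l : E)‖ := by
        rw [norm_smul, Real.norm_of_nonneg (Nat.cast_nonneg k)]
      have h2 : ‖(k : ℝ) • (l : E)‖ ≤ ‖v₀ + (k : ℝ) • (l : E)‖ + ‖v₀‖ := by
        have := norm_sub_le (v₀ + (k : ℝ) • (l : E)) v₀
        simpa using this
      nlinarith
  · filter_upwards [eventually_norm_le L v₀] with k hk l
    by_cases hl : l = 0
    · subst hl
      refine (hf _).trans (mul_le_mul_of_nonneg_left (Real.exp_le_exp.mpr ?_) hC)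
      simp only [ZeroMemClass.coe_zero, smul_zero, add_zero, norm_zero, mul_zero]
      have := norm_nonneg v₀
      nlinarith
    · refine (hf _).trans (mul_le_mul_of_nonneg_left (Real.exp_le_exp.mpr ?_) hC)
      have := hk l hl
      nlinarith

/-- If `f v₀ ≠ 0` then the sum over `v₀ + k L` is not `0` for all large `k`. -/
theorem eventually_tsum_ne_zero (L : Submodule ℤ E) [DiscreteTopology L] {f : E → ℂ} {C ε : ℝ} (hε : 0 < ε)
    (hf : ∀ v, ‖f v‖ ≤ C * Real.exp (-ε * ‖v‖)) {v₀ : E} (h0 : f v₀ ≠ 0) :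
    ∀ᶠ k : ℕ in atTop, ∑' l : L, f (v₀ + (k : ℝ) • (l : E)) ≠ 0 :=
  (tendsto_tsum_single L hε hf v₀).eventually_ne h0

end Pool.Agent.Lib.CMT.NV
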