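import Pool.Agent.Lib.CMT.NV.Lat

/-! # The theta 1-forms do not vanish (part F)

At the centre `z = 0` of the ball the exponent of the theta form is
`G(v) = ∑_t κ_t |t a| (v_{t,0}² + v_{t,1}² + |t β| v_{t,2}²)`, `v = emb x`, positive definite, and
`du = (x_0, x_1) / ss`.  So `om a (ind k x₀) 0` tends to the single term of `x₀` when `k → ∞`, and
`wedge (om a₁ (ind k e₀) 0) (om a₂ (ind k e₁) 0) ≠ 0` for all large `k`, `e₀ = (1,0,0)`, `e₁ = (0,1,0)`.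
-/

noncomputable section

open Filter Topology NumberField

set_option linter.unusedSectionVars false

namespace CMT.NV

variable {F : Type} [Field F] [NumberField F]

/-- The exponent of the theta form at the centre of the ball. -/
def GG (D : Dat F) (a : F) (v : RE F) : ℝ :=
  ∑ t : F →+* ℝ, kap D t * |t a| * (v t 0 ^ 2 + v t 1 ^ 2 + |t D.bet| * v t 2 ^ 2)

theorem kap_pos (D : Dat F) (t : F →+* ℝ) : 0 < kap D t :=
  div_pos Real.pi_pos (Real.sqrt_pos.mpr (D.del_pos t))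

theorem ss_sq (b : ℝ) (z : ℂ × ℂ) : ss b z ^ 2 = mm b z := by
  unfold ss
  have := Complex.cpow_nat_inv_pow (mm b z) (n := 2) two_ne_zero
  rw [one_div]
  exact_mod_cast this

theorem mm_zero (b : ℝ) : mm b (0 : ℂ × ℂ) = (b : ℂ) := by
  simp [mm]

theorem ll_zero (b : ℝ) (x : Fin 3 → ℝ) : ll b x (0 : ℂ × ℂ) = -((b : ℂ) * (x 2 : ℂ)) := by
  simp [ll]

theorem ss_zero_ne {b : ℝ} (hb : 0 < b) : ss b (0 : ℂ × ℂ) ≠ 0 := by
  intro h
  have := ss_sq b 0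
  rw [h, mm_zero] at this
  have hb' : (b : ℂ) ≠ 0 := by exact_mod_cast hb.ne'
  exact hb' (by rw [← this]; ring)

theorem uu_sq_zero {b : ℝ} (hb : 0 < b) (x : Fin 3 → ℝ) :
    uu b x (0 : ℂ × ℂ) ^ 2 = ((b * x 2 ^ 2 : ℝ) : ℂ) := by
  have hb' : (b : ℂ) ≠ 0 := by exact_mod_cast hb.ne'
  unfold uu
  rw [div_pow, ss_sq, mm_zero, ll_zero]
  push_cast
  field_simp

theorem du_zero {b : ℝ} (hb : 0 < b) (x : Fin 3 → ℝ) :
    du b x (0 : ℂ × ℂ) = ((x 0 : ℂ) / ss b 0, (x 1 : ℂ) / ss b 0) := by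
  have hb' : (b : ℂ) ≠ 0 := by exact_mod_cast hb.ne'
  have hs := ss_zero_ne hb
  unfold du
  rw [mm_zero]
  have h1 : (0 : ℂ × ℂ).1 = 0 := rfl
  have h2 : (0 : ℂ × ℂ).2 = 0 := rfl
  rw [h1, h2, mul_zero, add_zero, add_zero]
  congr 1
  · field_simp
  · field_simp

theorem tm1_zero (D : Dat F) (a : F) (x : Fin 3 → F) :
    tm1 D a x 0 = Complex.exp (-((GG D a (emb F x) : ℝ) : ℂ)) := by
  unfold tm1 e0 e1 GG
  rw [uu_sq_zero D.bet_pos]
  congr 2
  rw [← Finset.add_sum_erase Finset.univ _ (Finset.mem_univ D.t0)]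
  have h1 : ∑ t ∈ Finset.univ.erase D.t0, kap D t * (|t a| * qf (t D.bet) (rx t x) (rx t x)) =
      ∑ t ∈ Finset.univ.erase D.t0, kap D t * |t a| *
        (emb F x t 0 ^ 2 + emb F x t 1 ^ 2 + |t D.bet| * emb F x t 2 ^ 2) := by
    refine Finset.sum_congr rfl fun t ht => ?_
    have hneg := D.bet_neg t (Finset.ne_of_mem_erase ht)
    rw [abs_of_neg hneg]
    simp only [qf, rx, emb_apply]
    ring
  rw [h1, abs_of_pos D.bet_pos]
  simp only [qf, rx, emb_apply]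
  push_cast
  ring

/-- `GG` is positive definite. -/
theorem exists_lower (D : Dat F) {a : F} (ha : a ≠ 0) :
    ∃ c : ℝ, 0 < c ∧ ∀ v : RE F, c * ‖v‖ ^ 2 ≤ GG D a v := by
  classical
  have hta : ∀ t : F →+* ℝ, 0 < |t a| := fun t => abs_pos.mpr ((map_ne_zero t).mpr ha)
  have htb : ∀ t : F →+* ℝ, 0 < |t D.bet| := by
    intro t
    by_cases ht : t = D.t0
    · rw [ht]; exact abs_pos.mpr D.bet_pos.ne'
    · exact abs_pos.mpr (D.bet_neg t ht).ne
  have hne : (Finset.univ : Finset (F →+* ℝ)).Nonempty := ⟨D.t0, Finset.mem_univ _⟩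
  set w : (F →+* ℝ) → ℝ := fun t => kap D t * |t a| * min 1 |t D.bet| with hw
  have hwpos : ∀ t, 0 < w t := fun t =>
    mul_pos (mul_pos (kap_pos D t) (hta t)) (lt_min one_pos (htb t))
  obtain ⟨s, -, hs⟩ := Finset.exists_min_image Finset.univ w hne
  refine ⟨w s, hwpos s, fun v => ?_⟩
  have hterm : ∀ t, ∀ i : Fin 3, w s * v t i ^ 2 ≤
      kap D t * |t a| * (v t 0 ^ 2 + v t 1 ^ 2 + |t D.bet| * v t 2 ^ 2) := by
    intro t i
    have h1 : w s ≤ w t := hs t (Finset.mem_univ t)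
    have h2 : w t * v t i ^ 2 ≤
        kap D t * |t a| * (v t 0 ^ 2 + v t 1 ^ 2 + |t D.bet| * v t 2 ^ 2) := by
      have hk : 0 ≤ kap D t * |t a| := (mul_pos (kap_pos D t) (hta t)).le
      rw [hw]
      simp only
      rw [mul_assoc (kap D t * |t a|)]
      refine mul_le_mul_of_nonneg_left ?_ hk
      have hm1 : min 1 |t D.bet| ≤ 1 := min_le_left _ _
      have hm2 : min 1 |t D.bet| ≤ |t D.bet| := min_le_right _ _
      have hm0 : 0 ≤ min 1 |t D.bet| := (lt_min one_pos (htb t)).le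
      have s0 := sq_nonneg (v t 0)
      have s1 := sq_nonneg (v t 1)
      have s2 := sq_nonneg (v t 2)
      have p2 := mul_nonneg (htb t).le s2
      fin_cases i
      · simp only [Fin.zero_eta, Fin.isValue]
        nlinarith
      · simp only [Fin.mk_one, Fin.isValue]
        nlinarith
      · simp only [Fin.reduceFinMk, Fin.isValue]
        nlinarith
    calc w s * v t i ^ 2 ≤ w t * v t i ^ 2 := mul_le_mul_of_nonneg_right h1 (sq_nonneg _)
      _ ≤ _ := h2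
  have hnn : ∀ t, 0 ≤ kap D t * |t a| * (v t 0 ^ 2 + v t 1 ^ 2 + |t D.bet| * v t 2 ^ 2) := by
    intro t
    have := hterm t 0
    have h3 := mul_nonneg (hwpos s).le (sq_nonneg (v t 0))
    linarith
  have hG : ∀ t, ∀ i : Fin 3, w s * v t i ^ 2 ≤ GG D a v := by
    intro t i
    refine (hterm t i).trans ?_
    unfold GG
    exact Finset.single_le_sum (f := fun t : F →+* ℝ =>
      kap D t * |t a| * (v t 0 ^ 2 + v t 1 ^ 2 + |t D.bet| * v t 2 ^ 2))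
      (fun t _ => hnn t) (Finset.mem_univ t)
  have hG0 : 0 ≤ GG D a v := by
    have := hG D.t0 0
    have h3 := mul_nonneg (hwpos s).le (sq_nonneg (v D.t0 0))
    linarith
  have hnorm : ‖v‖ ≤ Real.sqrt (GG D a v / w s) := by
    rw [pi_norm_le_iff_of_nonneg (Real.sqrt_nonneg _)]
    intro t
    rw [pi_norm_le_iff_of_nonneg (Real.sqrt_nonneg _)]
    intro i
    refine Real.le_sqrt_of_sq_le ?_
    rw [Real.norm_eq_abs, sq_abs, le_div_iff₀ (hwpos s)]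
    have := hG t i
    linarith
  have h5 : ‖v‖ ^ 2 ≤ GG D a v / w s := by
    calc ‖v‖ ^ 2 ≤ (Real.sqrt (GG D a v / w s)) ^ 2 := by gcongr
      _ = GG D a v / w s := Real.sq_sqrt (div_nonneg hG0 (hwpos s).le)
  rw [le_div_iff₀ (hwpos s)] at h5
  linarith

/-- The function `v ↦ exp (-G v) * v_{t0,i} / s` which is summed at `z = 0`. -/
def ff (D : Dat F) (a : F) (i : Fin 3) (v : RE F) : ℂ :=
  Complex.exp (-((GG D a v : ℝ) : ℂ)) * ((v D.t0 i : ℂ) / ss (D.t0 D.bet) 0)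

theorem ff_decay (D : Dat F) {a : F} (ha : a ≠ 0) (i : Fin 3) :
    ∃ C : ℝ, ∀ v, ‖ff D a i v‖ ≤ C * Real.exp (-1 * ‖v‖) := by
  obtain ⟨c, hc, hG⟩ := exists_lower D ha
  refine ⟨Real.exp (1 / c) / ‖ss (D.t0 D.bet) 0‖, fun v => ?_⟩
  have hs : 0 < ‖ss (D.t0 D.bet) 0‖ := norm_pos_iff.mpr (ss_zero_ne D.bet_pos)
  unfold ff
  rw [norm_mul, norm_div, Complex.norm_exp]
  have h1 : (-((GG D a v : ℝ) : ℂ)).re = -(GG D a v) := by simp
  rw [h1, Complex.norm_real]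
  have h2 : ‖v D.t0 i‖ ≤ ‖v‖ := (norm_le_pi_norm _ i).trans (norm_le_pi_norm _ D.t0)
  have h3 : ‖v‖ ≤ Real.exp ‖v‖ := by
    have := Real.add_one_le_exp ‖v‖
    linarith
  have h4 : Real.exp (-(GG D a v)) ≤ Real.exp (-(c * ‖v‖ ^ 2)) :=
    Real.exp_le_exp.mpr (neg_le_neg (hG v))
  have h5 : -(c * ‖v‖ ^ 2) + ‖v‖ ≤ 1 / c + -1 * ‖v‖ := by
    have h6 : 0 ≤ (c * ‖v‖ - 1) ^ 2 := sq_nonneg _
    have h7 : c * (-(c * ‖v‖ ^ 2) + ‖v‖) ≤ c * (1 / c + -1 * ‖v‖) := by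
      have : c * (1 / c) = 1 := by field_simp
      nlinarith
    exact le_of_mul_le_mul_left h7 hc
  calc Real.exp (-(GG D a v)) * (‖v D.t0 i‖ / ‖ss (D.t0 D.bet) 0‖)
      ≤ Real.exp (-(c * ‖v‖ ^ 2)) * (Real.exp ‖v‖ / ‖ss (D.t0 D.bet) 0‖) := by
        gcongr
        exact h2.trans h3
    _ = Real.exp (-(c * ‖v‖ ^ 2) + ‖v‖) / ‖ss (D.t0 D.bet) 0‖ := by
        rw [Real.exp_add]; ring
    _ ≤ Real.exp (1 / c + -1 * ‖v‖) / ‖ss (D.t0 D.bet) 0‖ := by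
        gcongr
    _ = Real.exp (1 / c) / ‖ss (D.t0 D.bet) 0‖ * Real.exp (-1 * ‖v‖) := by
        rw [Real.exp_add]; ring

theorem om_zero (D : Dat F) (a : F) (φ : (Fin 3 → F) → ℂ) :
    om D a φ 0 = (∑' x : Fin 3 → F, φ x * ff D a 0 (emb F x), ∑' x : Fin 3 → F, φ x * ff D a 1 (emb F x)) := by
  unfold om
  congr 1
  · refine tsum_congr fun x => ?_
    rw [tm1_zero, du_zero D.bet_pos, mul_assoc]
    rfl
  · refine tsum_congr fun x => ?_
    rw [tm1_zero, du_zero D.bet_pos, mul_assoc]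
    rfl

variable [IsTotallyReal F]

/-- At the centre of the ball the theta form of `x₀ + k O_F³` tends to its single term. -/
theorem tendsto_om (D : Dat F) {a : F} (ha : a ≠ 0) (x₀ : Fin 3 → F) :
    Tendsto (fun k : ℕ => om D a (ind k x₀) 0) atTop
      (𝓝 (ff D a 0 (emb F x₀), ff D a 1 (emb F x₀))) := by
  obtain ⟨C0, h0⟩ := ff_decay D ha 0
  obtain ⟨C1, h1⟩ := ff_decay D ha 1
  have t0 := tendsto_ind D.t0 one_pos h0 x₀
  have t1 := tendsto_ind D.t0 one_pos h1 x₀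
  refine (t0.prodMk_nhds t1).congr fun k => ?_
  rw [om_zero]

/-- The vectors `(1,0,0)` and `(0,1,0)`. -/
def e₀ (F : Type) [Field F] : Fin 3 → F := ![1, 0, 0]

/-- The vectors `(1,0,0)` and `(0,1,0)`. -/
def e₁ (F : Type) [Field F] : Fin 3 → F := ![0, 1, 0]

theorem e₀_mem : e₀ F ∈ O3 F := by
  intro i
  fin_cases i
  · exact isIntegral_one
  · exact isIntegral_zero
  · exact isIntegral_zero

theorem e₁_mem : e₁ F ∈ O3 F := by
  intro i
  fin_cases i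
  · exact isIntegral_zero
  · exact isIntegral_one
  · exact isIntegral_zero

/-- **Part F.** `ω_{a₁,φ₁} ∧ ω_{a₂,φ₂}` is not `0` at the centre of the ball, `φ₁, φ₂` the indicator functions of
`e₀ + k O_F³` and `e₁ + k O_F³`, `k` large. -/
theorem eventually_wedge_ne_zero (D : Dat F) {a1 a2 : F} (h1 : a1 ≠ 0) (h2 : a2 ≠ 0) :
    ∀ᶠ k : ℕ in atTop, wedge (om D a1 (ind k (e₀ F)) 0) (om D a2 (ind k (e₁ F)) 0) ≠ 0 := by
  have t1 := tendsto_om D h1 (e₀ F)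
  have t2 := tendsto_om D h2 (e₁ F)
  have hcont : Continuous fun p : (ℂ × ℂ) × (ℂ × ℂ) => wedge p.1 p.2 := by
    unfold wedge
    fun_prop
  have t3 := (hcont.tendsto _).comp (t1.prodMk_nhds t2)
  refine t3.eventually_ne ?_
  have hs := ss_zero_ne D.bet_pos
  have a1' : emb F (e₀ F) D.t0 0 = 1 := by simp [emb_apply, e₀]
  have a2' : emb F (e₀ F) D.t0 1 = 0 := by simp [emb_apply, e₀]
  have b1' : emb F (e₁ F) D.t0 0 = 0 := by simp [emb_apply, e₁]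
  have b2' : emb F (e₁ F) D.t0 1 = 1 := by simp [emb_apply, e₁]
  simp only [wedge, ff, a1', a2', b1', b2', Complex.ofReal_one, Complex.ofReal_zero, zero_div, mul_zero,
    sub_zero]
  exact mul_ne_zero (mul_ne_zero (Complex.exp_ne_zero _) (div_ne_zero one_ne_zero hs))
    (mul_ne_zero (Complex.exp_ne_zero _) (div_ne_zero one_ne_zero hs))

theorem zero_mem_Ball (D : Dat F) : (0 : ℂ × ℂ) ∈ Ball D := by
  show ‖(0 : ℂ × ℂ).1‖ ^ 2 + ‖(0 : ℂ × ℂ).2‖ ^ 2 < D.t0 D.bet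
  simpa using D.bet_pos

/-- **Part F, existence form.** -/
theorem exists_wedge_ne_zero (D : Dat F) {a1 a2 : F} (h1 : a1 ≠ 0) (h2 : a2 ≠ 0) :
    ∃ (n : ℕ) (φ1 φ2 : (Fin 3 → F) → ℂ), 1 ≤ n ∧ SB n φ1 ∧ SB n φ2 ∧
      ∃ z ∈ Ball D, wedge (om D a1 φ1 z) (om D a2 φ2 z) ≠ 0 := by
  obtain ⟨n, hn, hn1⟩ := ((eventually_wedge_ne_zero D h1 h2).and (eventually_ge_atTop 1)).exists
  exact ⟨n, _, _, hn1, SB_ind n e₀_mem, SB_ind n e₁_mem, 0, zero_mem_Ball D, hn⟩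

end CMT.NV
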