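import Pool.Agent.Lib.CMT.Iface
import Pool.Agent.Lib.CMT.NV.Main

/-! # Part F, interface form: `S_NV` -/

namespace CMT.NV

open Filter

/-- **Part F.** -/
theorem holds : S_NV := by
  intro F _ _ _ D a1 a2 h1 h2
  obtain ⟨n, hn, hn1⟩ := ((eventually_wedge_ne_zero D h1 h2).and (eventually_ge_atTop 1)).exists
  exact ⟨_, _, ⟨n, hn1, SB_ind n e₀_mem⟩, ⟨n, hn1, SB_ind n e₁_mem⟩, hn⟩

end CMT.NV
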