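import Pool.Agent.Lib.CMT.Defs
import Pool.Agent.Lib.CMT.NV.Tend

/-! # The lattice `O_F³` in `∏_t ℝ³`, and sums over `x₀ + k O_F³`

`emb x = (t (x_i))_{t,i}`.  For a totally real field `F` the image `LL` of `O_F³` is discrete: a nonzero algebraic
integer has absolute value at least `1` at some real place.  For `f` decaying exponentially on `∏_t ℝ³` the sum
`∑_x ind k x₀ x * f (emb x)` over `F³` (`ind k x₀` the indicator function of `x₀ + k O_F³`) tends to `f (emb x₀)`.
-/

noncomputable section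

open Filter Topology NumberField

set_option linter.unusedSectionVars false

namespace CMT.NV

open Pool.Agent.Lib.CMT.NV

variable (F : Type) [Field F] [NumberField F]

/-- The space `∏_t ℝ³`. -/
abbrev RE (F : Type) [Field F] : Type := (F →+* ℝ) → Fin 3 → ℝ

/-- The embedding `x ↦ (t (x_i))`. -/
def emb : (Fin 3 → F) →ₗ[ℤ] RE F where
  toFun x := fun t i => t (x i)
  map_add' x y := by
    funext t i
    simp
  map_smul' m x := by
    funext t i
    simp

/-- The lattice `O_F³` in `F³`. -/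
def O3 : Submodule ℤ (Fin 3 → F) where
  carrier := {x | ∀ i, IsIntegral ℤ (x i)}
  add_mem' := fun hx hy i => (hx i).add (hy i)
  zero_mem' := fun i => isIntegral_zero
  smul_mem' := by
    intro m x hx i
    have := (hx i).zsmul m
    simpa using this

/-- Its image in `∏_t ℝ³`. -/
def LL : Submodule ℤ (RE F) := (O3 F).map (emb F)

variable {F}

theorem emb_apply (x : Fin 3 → F) (t : F →+* ℝ) (i : Fin 3) : emb F x t i = t (x i) := rfl

theorem emb_injective (t0 : F →+* ℝ) : Function.Injective (emb F) := by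
  intro x y h
  funext i
  exact t0.injective (congrFun (congrFun h t0) i)

theorem mem_O3 {x : Fin 3 → F} : x ∈ O3 F ↔ ∀ i, IsIntegral ℤ (x i) := Iff.rfl

/-- A nonzero algebraic integer of a totally real field is at least `1` at some place. -/
theorem exists_one_le [IsTotallyReal F] {x : F} (hx : IsIntegral ℤ x) (h0 : x ≠ 0) :
    ∃ t : F →+* ℝ, 1 ≤ |t x| := by
  have ha0 : (⟨x, hx⟩ : 𝓞 F) ≠ 0 := by
    intro h
    apply h0
    exact congrArg (fun y : 𝓞 F => (y : F)) h
  obtain ⟨w, hw⟩ : ∃ w : InfinitePlace F, 1 ≤ w x := by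
    by_contra hcon
    push Not at hcon
    obtain ⟨w⟩ : Nonempty (InfinitePlace F) := inferInstance
    have h1 : 1 ≤ w ((⟨x, hx⟩ : 𝓞 F) : F) := InfinitePlace.one_le_of_lt_one ha0 (fun z _ => hcon z)
    exact absurd h1 (not_le.mpr (hcon w))
  have hr : w.IsReal := IsTotallyReal.isReal w
  refine ⟨InfinitePlace.embedding_of_isReal hr, ?_⟩
  have := InfinitePlace.norm_embedding_of_isReal hr x
  rw [Real.norm_eq_abs] at this
  rw [this]
  exact hw

theorem one_le_norm_emb [IsTotallyReal F] {y : Fin 3 → F} (hy : y ∈ O3 F) (h0 : y ≠ 0) :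
    1 ≤ ‖emb F y‖ := by
  obtain ⟨i, hi⟩ : ∃ i, y i ≠ 0 := by
    by_contra h
    push Not at h
    exact h0 (funext h)
  obtain ⟨t, ht⟩ := exists_one_le (hy i) hi
  calc (1 : ℝ) ≤ |t (y i)| := ht
    _ = ‖emb F y t i‖ := by rw [emb_apply, Real.norm_eq_abs]
    _ ≤ ‖emb F y t‖ := norm_le_pi_norm _ i
    _ ≤ ‖emb F y‖ := norm_le_pi_norm _ t

instance [IsTotallyReal F] : DiscreteTopology (LL F) := by
  refine DiscreteTopology.of_forall_le_norm (r := 1) one_pos ?_
  rintro ⟨l, y, hy, rfl⟩ hl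
  refine one_le_norm_emb hy ?_
  rintro rfl
  exact hl (Subtype.ext (map_zero (emb F)))

open Classical in
/-- The indicator function of `x₀ + k O_F³`. -/
def ind (k : ℕ) (x₀ x : Fin 3 → F) : ℂ :=
  if ∃ y ∈ O3 F, x = x₀ + (k : F) • y then 1 else 0

theorem ind_self (k : ℕ) (x₀ y : Fin 3 → F) (hy : y ∈ O3 F) : ind k x₀ (x₀ + (k : F) • y) = 1 := by
  unfold ind
  rw [if_pos ⟨y, hy, rfl⟩]

theorem ind_ne_zero {k : ℕ} {x₀ x : Fin 3 → F} (h : ind k x₀ x ≠ 0) :
    ∃ y ∈ O3 F, x = x₀ + (k : F) • y := by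
  by_contra hcon
  apply h
  unfold ind
  rw [if_neg hcon]

theorem norm_ind_le (k : ℕ) (x₀ x : Fin 3 → F) : ‖ind k x₀ x‖ ≤ 1 := by
  unfold ind
  split_ifs <;> simp

/-- `ind k x₀` is a Schwartz-Bruhat function of level `k` if `x₀` is integral. -/
theorem SB_ind (k : ℕ) {x₀ : Fin 3 → F} (hx₀ : x₀ ∈ O3 F) : SB k (ind k x₀) := by
  refine ⟨?_, ?_⟩
  · intro x hx i
    obtain ⟨y, hy, rfl⟩ := ind_ne_zero hx
    have hk : IsIntegral ℤ (k : F) := isIntegral_natCast _
    exact hk.mul ((hx₀ i).add (hk.mul (hy i)))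
  · intro x y hy
    have key : (∃ w ∈ O3 F, (fun i => x i + (k : F) * y i) = x₀ + (k : F) • w) ↔
        ∃ w ∈ O3 F, x = x₀ + (k : F) • w := by
      constructor
      · rintro ⟨w, hw, h⟩
        refine ⟨w - y, (O3 F).sub_mem hw hy, ?_⟩
        funext i
        have := congrFun h i
        simp only [Pi.add_apply, Pi.smul_apply, smul_eq_mul, Pi.sub_apply] at this ⊢
        linear_combination this
      · rintro ⟨w, hw, h⟩
        refine ⟨w + y, (O3 F).add_mem hw hy, ?_⟩
        funext i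
        have := congrFun h i
        simp only [Pi.add_apply, Pi.smul_apply, smul_eq_mul] at this ⊢
        linear_combination this
    unfold ind
    by_cases h : ∃ w ∈ O3 F, x = x₀ + (k : F) • w
    · rw [if_pos (key.mpr h), if_pos h]
    · rw [if_neg (fun h' => h (key.mp h')), if_neg h]

theorem emb_add_smul (k : ℕ) (x₀ y : Fin 3 → F) :
    emb F (x₀ + (k : F) • y) = emb F x₀ + (k : ℝ) • emb F y := by
  funext t i
  simp [emb_apply]

theorem shift_injective {k : ℕ} (hk : 1 ≤ k) (x₀ : Fin 3 → F) :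
    Function.Injective fun y : O3 F => x₀ + (k : F) • (y : Fin 3 → F) := by
  intro a b hab
  have h1 : (k : F) • (a : Fin 3 → F) = (k : F) • (b : Fin 3 → F) := by
    simpa using hab
  have hk' : (k : F) ≠ 0 := by exact_mod_cast (by omega : k ≠ 0)
  exact Subtype.ext (smul_right_injective _ hk' h1)

/-- The index equivalence between `O_F³` and the lattice `LL`. -/
def eqv (t0 : F →+* ℝ) : O3 F ≃ LL F :=
  (Submodule.equivMapOfInjective (emb F) (emb_injective t0) (O3 F)).toEquiv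

theorem eqv_apply (t0 : F →+* ℝ) (y : O3 F) : ((eqv t0 y : LL F) : RE F) = emb F y := rfl

variable [IsTotallyReal F]

/-- Convergence of the sum over `x₀ + k O_F³`. -/
theorem summable_ind (t0 : F →+* ℝ) {f : RE F → ℂ} {C ε : ℝ} (hε : 0 < ε)
    (hf : ∀ v, ‖f v‖ ≤ C * Real.exp (-ε * ‖v‖)) (x₀ : Fin 3 → F) {k : ℕ} (hk : 1 ≤ k) :
    Summable fun x : Fin 3 → F => ind k x₀ x * f (emb F x) := by
  rw [← (shift_injective hk x₀).summable_iff]
  · have h1 := (summable_translate_smul (LL F) hε hf (emb F x₀) hk)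
    have h2 := (eqv t0).summable_iff.mpr h1
    refine h2.congr fun y => ?_
    simp only [Function.comp_apply]
    rw [ind_self k x₀ _ y.2, one_mul, emb_add_smul, eqv_apply]
  · intro x hx
    have : ind k x₀ x = 0 := by
      by_contra h
      obtain ⟨y, hy, rfl⟩ := ind_ne_zero h
      exact hx ⟨⟨y, hy⟩, rfl⟩
    rw [this, zero_mul]

/-- The sum over `x₀ + k O_F³` as a sum over the lattice. -/
theorem tsum_ind (t0 : F →+* ℝ) (f : RE F → ℂ) (x₀ : Fin 3 → F) {k : ℕ} (hk : 1 ≤ k) :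
    ∑' x : Fin 3 → F, ind k x₀ x * f (emb F x) = ∑' l : LL F, f (emb F x₀ + (k : ℝ) • (l : RE F)) := by
  rw [← (shift_injective hk x₀).tsum_eq (f := fun x : Fin 3 → F => ind k x₀ x * f (emb F x))]
  · rw [← (eqv t0).tsum_eq]
    refine tsum_congr fun y => ?_
    rw [ind_self k x₀ _ y.2, one_mul, emb_add_smul, eqv_apply]
  · intro x hx
    have h : ind k x₀ x ≠ 0 := left_ne_zero_of_mul hx
    obtain ⟨y, hy, rfl⟩ := ind_ne_zero h
    exact ⟨⟨y, hy⟩, rfl⟩

/-- **The sum over `x₀ + k O_F³` tends to the single term.** -/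
theorem tendsto_ind (t0 : F →+* ℝ) {f : RE F → ℂ} {C ε : ℝ} (hε : 0 < ε)
    (hf : ∀ v, ‖f v‖ ≤ C * Real.exp (-ε * ‖v‖)) (x₀ : Fin 3 → F) :
    Tendsto (fun k : ℕ => ∑' x : Fin 3 → F, ind k x₀ x * f (emb F x)) atTop (𝓝 (f (emb F x₀))) := by
  refine (tendsto_tsum_single (LL F) hε hf (emb F x₀)).congr' ?_
  filter_upwards [eventually_ge_atTop 1] with k hk
  rw [tsum_ind t0 f x₀ hk]

end CMT.NV
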